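import Mathlib

/-!
# Pseudo-distributions on independent sets of bounded size
-/

set_option autoImplicit false

namespace Pool.Agent.K4H31.SD

open Finset

variable {V : Type} [Fintype V] [DecidableEq V]

/-- double counting -/
theorem double_count (j : ℕ) (g : Finset V → ℝ) :
    ∑ D ∈ powersetCard j (univ : Finset V), ∑ x ∈ Dᶜ, g (insert x D) =
      (j + 1) * ∑ S ∈ powersetCard (j + 1) (univ : Finset V), g S := by
  have h1 : ((j : ℝ) + 1) * ∑ S ∈ powersetCard (j + 1) (univ : Finset V), g S =
      ∑ S ∈ powersetCard (j + 1) (univ : Finset V), ∑ _x ∈ S, g S := by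
    rw [mul_sum]
    refine sum_congr rfl fun S hS => ?_
    rw [sum_const, (mem_powersetCard.1 hS).2, nsmul_eq_mul]
    push_cast
    ring
  rw [h1, sum_sigma', sum_sigma']
  refine sum_bij' (fun p _ => ⟨insert p.2 p.1, p.2⟩) (fun p _ => ⟨p.1.erase p.2, p.2⟩)
    ?_ ?_ ?_ ?_ ?_
  · rintro ⟨D, x⟩ h
    simp only [mem_sigma, mem_powersetCard, subset_univ, true_and, mem_compl] at h ⊢
    exact ⟨by rw [card_insert_of_notMem h.2, h.1], mem_insert_self _ _⟩
  · rintro ⟨S, x⟩ h
    simp only [mem_sigma, mem_powersetCard, subset_univ, true_and, mem_compl] at h ⊢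
    exact ⟨by rw [card_erase_of_mem h.2, h.1]; rfl, notMem_erase _ _⟩
  · rintro ⟨D, x⟩ h
    simp only [mem_sigma, mem_powersetCard, subset_univ, true_and, mem_compl] at h
    simp only [erase_insert h.2]
  · rintro ⟨S, x⟩ h
    simp only [mem_sigma, mem_powersetCard, subset_univ, true_and] at h
    simp only [insert_erase h.2]
  · rintro ⟨D, x⟩ _
    rfl

/-- sums over the sets of given size -/
def esum (y : Finset V → ℝ) (j : ℕ) : ℝ := ∑ S ∈ powersetCard j (univ : Finset V), y S

theorem variance_sum {y : Finset V → ℝ} {j : ℕ} {c : ℝ}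
    (h : ∀ D : Finset V, D.card = j → 0 ≤ ∑ x ∈ Dᶜ, ∑ z ∈ Dᶜ, y (insert x (insert z D)) -
      2 * c * ∑ x ∈ Dᶜ, y (insert x D) + c ^ 2 * y D) :
    0 ≤ (j + 1) * esum y (j + 1) + (j + 1) * ((j + 2) * esum y (j + 2)) -
      2 * c * ((j + 1) * esum y (j + 1)) + c ^ 2 * esum y j := by
  have h1 : 0 ≤ ∑ D ∈ powersetCard j (univ : Finset V),
      (∑ x ∈ Dᶜ, ∑ z ∈ Dᶜ, y (insert x (insert z D)) -
      2 * c * ∑ x ∈ Dᶜ, y (insert x D) + c ^ 2 * y D) :=
    sum_nonneg fun D hD => h D (mem_powersetCard.1 hD).2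
  have h2 : ∀ D : Finset V, ∑ x ∈ Dᶜ, ∑ z ∈ Dᶜ, y (insert x (insert z D)) =
      ∑ x ∈ Dᶜ, (y (insert x D) + ∑ z ∈ (insert x D)ᶜ, y (insert z (insert x D))) := by
    intro D
    refine sum_congr rfl fun x hx => ?_
    have h3 : Dᶜ = insert x (insert x D)ᶜ := by
      ext v
      simp only [mem_compl, mem_insert, not_or]
      constructor
      · intro hv
        by_cases hvx : v = x
        · exact Or.inl hvx
        · exact Or.inr ⟨hvx, hv⟩
      · rintro (rfl | ⟨-, hv⟩)
        · exact mem_compl.1 hx
        · exact hv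
    conv_lhs => rw [h3]
    rw [sum_insert (by simp)]
    congr 1
    · rw [insert_idem]
    · refine sum_congr rfl fun z _ => ?_
      rw [Finset.insert_comm]
  rw [sum_add_distrib, sum_sub_distrib, ← mul_sum, ← mul_sum, double_count] at h1
  simp only [h2, sum_add_distrib] at h1
  rw [double_count, double_count j (fun S => ∑ z ∈ Sᶜ, y (insert z S)), double_count] at h1
  push_cast at h1
  unfold esum
  have e : (j : ℝ) + 1 + 1 = j + 2 := by ring
  rw [e] at h1
  exact h1

/-- **Pseudo-distributions on independent sets with at most `N` elements have pseudo-expectation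
of the size at most `N`.** -/
theorem chain {y : Finset V → ℝ} {N : ℕ} (h0 : ∀ S : Finset V, S.card ≤ N + 1 → 0 ≤ y S)
    (hN : ∀ S : Finset V, S.card = N + 1 → y S = 0)
    (h : ∀ D : Finset V, D.card < N → ∀ c : ℝ,
      0 ≤ ∑ x ∈ Dᶜ, ∑ z ∈ Dᶜ, y (insert x (insert z D)) -
        2 * c * ∑ x ∈ Dᶜ, y (insert x D) + c ^ 2 * y D) :
    ∑ x, y {x} ≤ N * y ∅ := by
  have hnn : ∀ j ≤ N + 1, 0 ≤ esum y j := fun j hj =>
    sum_nonneg fun S hS => h0 S (by rw [(mem_powersetCard.1 hS).2]; exact hj)
  have key : ∀ i ≤ N, (N - i + 1 : ℕ) * esum y (N - i + 1) ≤ i * esum y (N - i) := by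
    intro i
    induction i with
    | zero =>
      intro _
      have : esum y (N - 0 + 1) = 0 := by
        unfold esum
        exact sum_eq_zero fun S hS => hN S (mem_powersetCard.1 hS).2
      rw [this]
      simp
    | succ i ih =>
      intro hi
      have ih' := ih (by omega)
      obtain ⟨j, hj⟩ : ∃ j, j = N - (i + 1) := ⟨_, rfl⟩
      have e1 : N - i = j + 1 := by omega
      rw [e1] at ih'
      rw [← hj]
      have h1 : ∀ c : ℝ, 0 ≤ (j + 1) * esum y (j + 1) + (j + 1) * ((j + 2) * esum y (j + 2)) -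
          2 * c * ((j + 1) * esum y (j + 1)) + c ^ 2 * esum y j := fun c =>
        variance_sum fun D hD => h D (by omega) c
      have ha := hnn j (by omega)
      have hb := hnn (j + 1) (by omega)
      set A := esum y j with hA
      set B := ((j : ℝ) + 1) * esum y (j + 1) with hB
      have hB0 : 0 ≤ B := by positivity
      have h2 : ((j : ℝ) + 2) * esum y (j + 2) ≤ i * esum y (j + 1) := by
        have e2 : ((j + 1 + 1 : ℕ) : ℝ) = j + 2 := by push_cast; ring
        rw [e2] at ih'
        exact ih'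
      have h3 : ((j : ℝ) + 1) * ((j + 2) * esum y (j + 2)) ≤ i * B := by
        calc ((j : ℝ) + 1) * ((j + 2) * esum y (j + 2)) ≤ (j + 1) * (i * esum y (j + 1)) := by
              gcongr
          _ = i * B := by rw [hB]; ring
      have h4 : ∀ c : ℝ, 0 ≤ (i + 1) * B - 2 * c * B + c ^ 2 * A := fun c => by
        have := h1 c
        linarith
      have h5 : B ≤ (i + 1) * A := by
        rcases hB0.lt_or_eq with hpos | hz
        · have hA0 : 0 < A := by
            by_contra hcon
            have hA1 : A = 0 := le_antisymm (not_lt.1 hcon) ha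
            have := h4 (i + 2)
            rw [hA1] at this
            nlinarith
          have h6 := h4 (B / A)
          have h7 : (i + 1) * B - 2 * (B / A) * B + (B / A) ^ 2 * A =
              B * ((i + 1) - B / A) := by
            field_simp
            ring
          rw [h7] at h6
          have h8 : 0 ≤ (i + 1 : ℝ) - B / A := nonneg_of_mul_nonneg_right h6 hpos
          have h9 : B / A ≤ i + 1 := by linarith
          rwa [div_le_iff₀ hA0] at h9
        · rw [← hz]
          positivity
      push_cast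
      exact h5
  have h1 := key N le_rfl
  rw [Nat.sub_self] at h1
  have h2 : esum y 0 = y ∅ := by
    unfold esum
    simp
  have h3 : esum y 1 = ∑ x, y {x} := by
    unfold esum
    rw [powersetCard_one, sum_map]
    rfl
  rw [h2, zero_add, h3] at h1
  simpa using h1

end Pool.Agent.K4H31.SD
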