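import Mathlib
import Pool.Agent.K4H31.SD.Chain
import Pool.Agent.Y509.KP.Val
import Pool.Agent.R760.RR2
import Pool.Agent.H818R2.Limit

/-!
# Pseudo-packings of level `(s, t)` on regions with at most `s + t` points
-/

set_option autoImplicit false

namespace Pool.Agent.K4H31.SD

open Finset MeasureTheory
open Pool.Agent.H818R2 (rho rate)

/-- The pseudo-probability of `D ∪ S ⊆ C, F ∩ C = ∅`:
`∑_{G ⊆ F} (-1)^|G| y(D ∪ G ∪ S)`. -/
def pseudoProb {V : Type} [DecidableEq V] (y : Finset V → ℝ) (D F S : Finset V) : ℝ :=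
  ∑ G ∈ F.powerset, (-1) ^ G.card * y (D ∪ G ∪ S)

open Classical in
/-- Pseudo-packings of level `(s, t)` (with minimum distance `1`) on the finite set `X`. The rows
and columns of the matrices are indexed by the sets `S` with at most `t` points. -/
structure IsPseudoPacking (n s t : ℕ) (X : Finset (EuclideanSpace ℝ (Fin n))) (y : Finset X → ℝ) :
    Prop where
  one : y ∅ = 1
  dist : ∀ S : Finset X, ∀ u ∈ S, ∀ v ∈ S, u ≠ v →
    dist (u : EuclideanSpace ℝ (Fin n)) v < 1 → y S = 0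
  nonneg : ∀ D F : Finset X, D.card + F.card ≤ s + 2 * t → 0 ≤ pseudoProb y D F ∅
  psd : ∀ D F : Finset X, D.card + F.card ≤ s → ∀ a : Finset X → ℝ,
    (∀ S, t < S.card → a S = 0) → 0 ≤ ∑ S, ∑ T, a S * a T * pseudoProb y D F (S ∪ T)

/-- `B` is an upper bound for `∑_x y({x})` for all pseudo-packings `y` of level `(s, t)` on finite
subsets of the region `Λ`. -/
def IsBound (n s t : ℕ) (Λ : Set (EuclideanSpace ℝ (Fin n))) (B : ℝ) : Prop :=
  ∀ X : Finset (EuclideanSpace ℝ (Fin n)), (X : Set (EuclideanSpace ℝ (Fin n))) ⊆ Λ →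
    ∀ y : Finset X → ℝ, IsPseudoPacking n s t X y → ∑ x, y {x} ≤ B

/-- The bound of level `(s, t)` for the density of sphere packings in `ℝ^n`: the infimum of
`B vol(B_{1/2}) / vol(Λ)` over all bounded regions `Λ` and upper bounds `B` for the pseudo-packings
of level `(s, t)` in `Λ`. -/
noncomputable def lasserreDensity (n s t : ℕ) : ℝ :=
  sInf {δ : ℝ | ∃ (Λ : Set (EuclideanSpace ℝ (Fin n))) (B : ℝ), MeasurableSet Λ ∧
    Bornology.IsBounded Λ ∧ 0 < volume.real Λ ∧ IsBound n s t Λ B ∧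
    δ = B * volume.real (Metric.ball (0 : EuclideanSpace ℝ (Fin n)) (1 / 2)) / volume.real Λ}

theorem pseudoProb_empty {V : Type} [DecidableEq V] (y : Finset V → ℝ) (D S : Finset V) :
    pseudoProb y D ∅ S = y (D ∪ S) := by
  unfold pseudoProb
  simp

/-- a quadratic form in indicator functions -/
theorem quad_ind {V : Type} [Fintype V] [DecidableEq V] (g : Finset V → Finset V → ℝ)
    (hg : ∀ S T, g S T = g T S) (D1 : Finset V) (U : Finset V) (c : ℝ) :
    ∑ S, ∑ T, ((if S = D1 then -c else 0) + ∑ x ∈ U, if S = insert x D1 then (1 : ℝ) else 0) *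
      ((if T = D1 then -c else 0) + ∑ x ∈ U, if T = insert x D1 then (1 : ℝ) else 0) * g S T =
    ∑ x ∈ U, ∑ z ∈ U, g (insert x D1) (insert z D1) - 2 * c * ∑ x ∈ U, g D1 (insert x D1) +
      c ^ 2 * g D1 D1 := by
  have h1 : ∀ f : Finset V → ℝ,
      ∑ S, ((if S = D1 then -c else 0) + ∑ x ∈ U, if S = insert x D1 then (1 : ℝ) else 0) * f S =
        -c * f D1 + ∑ x ∈ U, f (insert x D1) := by
    intro f
    simp only [add_mul, sum_add_distrib, ite_mul, zero_mul, sum_ite_eq', mem_univ, if_true]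
    congr 1
    simp only [sum_mul, ite_mul, one_mul, zero_mul]
    rw [sum_comm]
    refine sum_congr rfl fun x _ => ?_
    rw [sum_ite_eq']
    simp
  have h2 : ∀ S, ∑ T, ((if S = D1 then -c else 0) +
        ∑ x ∈ U, if S = insert x D1 then (1 : ℝ) else 0) *
      ((if T = D1 then -c else 0) + ∑ x ∈ U, if T = insert x D1 then (1 : ℝ) else 0) * g S T =
      ((if S = D1 then -c else 0) + ∑ x ∈ U, if S = insert x D1 then (1 : ℝ) else 0) *
        (-c * g S D1 + ∑ x ∈ U, g S (insert x D1)) := by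
    intro S
    rw [← h1 (fun T => g S T), mul_sum]
    refine sum_congr rfl fun T _ => ?_
    ring
  simp only [h2]
  rw [h1 (fun S => -c * g S D1 + ∑ x ∈ U, g S (insert x D1)), sum_add_distrib, ← mul_sum]
  have h3 : ∑ x ∈ U, g (insert x D1) D1 = ∑ x ∈ U, g D1 (insert x D1) :=
    sum_congr rfl fun x _ => hg _ _
  rw [h3]
  ring

open Classical in
/-- **Exactness on regions with few points.** -/
theorem exact_on {n s t N : ℕ} (ht : 1 ≤ t) (hN : N ≤ s + t)
    {Λ : Set (EuclideanSpace ℝ (Fin n))}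
    (hΛ : ∀ P : Finset (EuclideanSpace ℝ (Fin n)), (P : Set (EuclideanSpace ℝ (Fin n))) ⊆ Λ →
      (∀ x ∈ P, ∀ z ∈ P, x ≠ z → 1 ≤ dist x z) → P.card ≤ N) : IsBound n s t Λ N := by
  intro X hX y hy
  have hy0 : ∀ S : Finset X, S.card ≤ s + 2 * t → 0 ≤ y S := by
    intro S hS
    have := hy.nonneg S ∅ (by simpa using hS)
    rwa [pseudoProb_empty, union_empty] at this
  have h1 := chain (V := X) (y := y) (N := N) (fun S hS => hy0 S (by omega)) (fun S hS => ?_)
    (fun D hD c => ?_)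
  · rwa [hy.one, mul_one] at h1
  · by_contra hne
    have h2 : ∀ x ∈ S.map (Function.Embedding.subtype _), ∀ z ∈ S.map (Function.Embedding.subtype _),
        x ≠ z → 1 ≤ Dist.dist x z := by
      intro x hx z hz hxz
      obtain ⟨u, hu, rfl⟩ := mem_map.1 hx
      obtain ⟨v, hv, rfl⟩ := mem_map.1 hz
      by_contra hlt
      exact hne (hy.dist S u hu v hv (fun h => hxz (by rw [h])) (not_le.1 hlt))
    have h3 := hΛ (S.map (Function.Embedding.subtype _)) (by
      intro x hx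
      obtain ⟨u, hu, rfl⟩ := mem_map.1 (mem_coe.1 hx)
      exact hX u.2) h2
    rw [card_map, hS] at h3
    omega
  · -- split `D` into a part of size at most `s` and a part of size at most `t - 1`
    obtain ⟨D0, hD0, hD0c⟩ := exists_subset_card_eq (show min s D.card ≤ D.card from min_le_right _ _)
    obtain ⟨D1, hD1⟩ : ∃ D1, D1 = D \ D0 := ⟨_, rfl⟩
    have hD1c : D1.card ≤ t - 1 := by
      rw [hD1, card_sdiff_of_subset hD0, hD0c]
      omega
    have hun : D0 ∪ D1 = D := by rw [hD1, union_sdiff_of_subset hD0]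
    have h4 := hy.psd D0 ∅ (by rw [card_empty, hD0c]; omega)
      (fun S => (if S = D1 then -c else 0) + ∑ x ∈ Dᶜ, if S = insert x D1 then (1 : ℝ) else 0) (by
        intro S hS
        rw [if_neg (by rintro rfl; omega), zero_add]
        refine sum_eq_zero fun x _ => if_neg ?_
        rintro rfl
        have := card_insert_le x D1
        omega)
    rw [quad_ind (fun S T => pseudoProb y D0 ∅ (S ∪ T)) (fun S T => by rw [union_comm])] at h4
    simp only [pseudoProb_empty] at h4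
    have e1 : ∀ x z, D0 ∪ (insert x D1 ∪ insert z D1) = insert x (insert z D) := by
      intro x z
      rw [← hun]
      ext v
      simp only [mem_union, mem_insert]
      tauto
    have e2 : ∀ x, D0 ∪ (D1 ∪ insert x D1) = insert x D := by
      intro x
      rw [← hun]
      ext v
      simp only [mem_union, mem_insert]
      tauto
    have e3 : D0 ∪ (D1 ∪ D1) = D := by rw [union_self, hun]
    simp only [e1, e2, e3] at h4
    exact h4

open Classical in
/-- the constant function `1` on a separated set -/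
theorem pack_one {n s t : ℕ} {X : Finset (EuclideanSpace ℝ (Fin n))}
    (hX : ∀ x ∈ X, ∀ z ∈ X, x ≠ z → 1 ≤ dist x z) : IsPseudoPacking n s t X (fun _ => 1) := by
  have h1 : ∀ D F S : Finset X, pseudoProb (fun _ => (1 : ℝ)) D F S = if F = ∅ then 1 else 0 := by
    intro D F S
    unfold pseudoProb
    simp only [mul_one]
    have h2 := Finset.sum_powerset_neg_one_pow_card (x := F)
    have h3 : ∑ m ∈ F.powerset, (-1 : ℝ) ^ m.card =
        ((∑ m ∈ F.powerset, (-1 : ℤ) ^ m.card : ℤ) : ℝ) := by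
      push_cast
      rfl
    rw [h3, h2]
    split_ifs <;> simp
  refine ⟨rfl, fun S u _ v _ huv h => ?_, fun D F _ => ?_, fun D F _ a _ => ?_⟩
  · have := hX u u.2 v v.2 (fun h' => huv (Subtype.ext h'))
    linarith
  · rw [h1]
    split_ifs <;> norm_num
  · simp only [h1]
    have h4 : ∑ S, ∑ T, a S * a T * (if F = ∅ then (1 : ℝ) else 0) =
        (∑ S, a S) ^ 2 * (if F = ∅ then (1 : ℝ) else 0) := by
      rw [sq, Finset.sum_mul_sum, Finset.sum_mul]
      refine Finset.sum_congr rfl fun s _ => ?_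
      rw [Finset.sum_mul]
    rw [h4]
    split_ifs <;> positivity

theorem bound_card {n s t : ℕ} {Λ : Set (EuclideanSpace ℝ (Fin n))} {B : ℝ}
    (h : IsBound n s t Λ B) {C : Finset (EuclideanSpace ℝ (Fin n))}
    (hC : (C : Set (EuclideanSpace ℝ (Fin n))) ⊆ Λ)
    (hs : ∀ x ∈ C, ∀ z ∈ C, x ≠ z → 1 ≤ dist x z) : (C.card : ℝ) ≤ B := by
  have h1 := h C hC (fun _ => 1) (pack_one hs)
  simpa using h1

theorem bound_nonneg {n s t : ℕ} {Λ : Set (EuclideanSpace ℝ (Fin n))} {B : ℝ}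
    (h : IsBound n s t Λ B) : 0 ≤ B := by
  have := bound_card h (C := ∅) (by simp) (by simp)
  simpa using this

theorem density_le {n s t : ℕ} {Λ : Set (EuclideanSpace ℝ (Fin n))} {B : ℝ}
    (h1 : MeasurableSet Λ) (h2 : Bornology.IsBounded Λ) (h3 : 0 < volume.real Λ)
    (h : IsBound n s t Λ B) : lasserreDensity n s t ≤
      B * volume.real (Metric.ball (0 : EuclideanSpace ℝ (Fin n)) (1 / 2)) / volume.real Λ := by
  refine csInf_le ⟨0, ?_⟩ ⟨Λ, B, h1, h2, h3, h, rfl⟩
  rintro δ ⟨Λ', B', -, -, -, h', rfl⟩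
  have := bound_nonneg h'
  positivity

/-- The largest number of points with mutual distances at least `1` in the closed ball of radius
`R` of `ℝ^n`. -/
noncomputable def ballMax (n : ℕ) (R : ℝ) : ℕ :=
  sSup {m | ∃ P : Finset (EuclideanSpace ℝ (Fin n)), (∀ x ∈ P, ‖x‖ ≤ R) ∧
    (∀ x ∈ P, ∀ z ∈ P, x ≠ z → 1 ≤ dist x z) ∧ P.card = m}

theorem count_le {n : ℕ} [NeZero n] {R : ℝ} (hR : 0 ≤ R)
    {P : Finset (EuclideanSpace ℝ (Fin n))} (h1 : ∀ x ∈ P, ‖x‖ ≤ R)
    (h2 : ∀ x ∈ P, ∀ z ∈ P, x ≠ z → 1 ≤ dist x z) :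
    (P.card : ℝ) ≤ rho n * (2 * R + 2) ^ n := by
  have h3 := Pool.Agent.R760.RR.count_ball (E := EuclideanSpace ℝ (Fin n)) (S := P)
    (r := 1 / 2) (R := R) (by norm_num) hR (by
      intro x hx z hz hxz
      have := h2 x hx z hz hxz
      linarith) h1
  rw [finrank_euclideanSpace_fin] at h3
  have h4 : (P.card : ℝ) = (P.card * (1 / 2) ^ n) * 2 ^ n := by
    rw [mul_assoc, ← mul_pow]
    norm_num
  rw [h4]
  calc (P.card * (1 / 2 : ℝ) ^ n) * 2 ^ n ≤ rho n * (R + 2 * (1 / 2)) ^ n * 2 ^ n :=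
        mul_le_mul_of_nonneg_right h3 (by positivity)
    _ = rho n * (2 * R + 2) ^ n := by
        rw [mul_assoc, ← mul_pow]
        congr 2
        ring

theorem ballMax_bdd {n : ℕ} [NeZero n] {R : ℝ} (hR : 0 ≤ R) :
    BddAbove {m | ∃ P : Finset (EuclideanSpace ℝ (Fin n)), (∀ x ∈ P, ‖x‖ ≤ R) ∧
      (∀ x ∈ P, ∀ z ∈ P, x ≠ z → 1 ≤ dist x z) ∧ P.card = m} := by
  refine ⟨⌊rho n * (2 * R + 2) ^ n⌋₊, ?_⟩
  rintro m ⟨P, h1, h2, rfl⟩
  exact Nat.le_floor (count_le hR h1 h2)

theorem le_ballMax {n : ℕ} [NeZero n] {R : ℝ} (hR : 0 ≤ R)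
    {P : Finset (EuclideanSpace ℝ (Fin n))} (h1 : ∀ x ∈ P, ‖x‖ ≤ R)
    (h2 : ∀ x ∈ P, ∀ z ∈ P, x ≠ z → 1 ≤ dist x z) : P.card ≤ ballMax n R :=
  le_csSup (ballMax_bdd hR) ⟨P, h1, h2, rfl⟩

theorem ballMax_le {n : ℕ} [NeZero n] {R : ℝ} (hR : 0 ≤ R) :
    (ballMax n R : ℝ) ≤ rho n * (2 * R + 2) ^ n := by
  obtain ⟨P, h1, h2, h3⟩ : ballMax n R ∈ {m | ∃ P : Finset (EuclideanSpace ℝ (Fin n)),
      (∀ x ∈ P, ‖x‖ ≤ R) ∧ (∀ x ∈ P, ∀ z ∈ P, x ≠ z → 1 ≤ dist x z) ∧ P.card = m} :=
    Nat.sSup_mem ⟨0, ∅, by simp, by simp, rfl⟩ (ballMax_bdd hR)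
  rw [← h3]
  exact count_le hR h1 h2

theorem vol_ratio {n : ℕ} {R : ℝ} (hR : 0 < R) :
    volume.real (Metric.ball (0 : EuclideanSpace ℝ (Fin n)) (1 / 2)) /
      volume.real (Metric.closedBall (0 : EuclideanSpace ℝ (Fin n)) R) = 1 / (2 * R) ^ n := by
  have hv := Pool.Agent.H818R2.vb_pos (E := EuclideanSpace ℝ (Fin n))
  rw [Pool.Agent.H818R2.vol_ball _ (by norm_num : (0 : ℝ) < 1 / 2),
    Pool.Agent.H818R2.vol_closedBall _ hR.le, finrank_euclideanSpace_fin]
  rw [mul_div_mul_right _ _ hv.ne', ← div_pow, ← one_div_pow]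
  congr 1
  field_simp

/-- **Level `N(n, R)` is at least as good as the volume bound for balls of radius `R`.** -/
theorem density_le_ballMax {n s t : ℕ} [NeZero n] (ht : 1 ≤ t) {R : ℝ} (hR : 0 < R)
    (h : ballMax n R ≤ s + t) : lasserreDensity n s t ≤ ballMax n R / (2 * R) ^ n := by
  have hb : IsBound n s t (Metric.closedBall 0 R) (ballMax n R) :=
    exact_on ht h fun P hP h2 => le_ballMax hR.le
      (fun x hx => mem_closedBall_zero_iff.1 (hP hx)) h2
  have h1 := density_le (Metric.isClosed_closedBall.measurableSet)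
    Metric.isBounded_closedBall (by
      rw [Pool.Agent.H818R2.vol_closedBall _ hR.le]
      have hv := Pool.Agent.H818R2.vb_pos (E := EuclideanSpace ℝ (Fin n))
      positivity) hb
  rw [mul_div_assoc, vol_ratio hR] at h1
  calc lasserreDensity n s t ≤ _ := h1
    _ = _ := by ring

theorem rho_le_density {n s t : ℕ} [NeZero n] (ht : 1 ≤ t) : rho n ≤ lasserreDensity n s t := by
  refine le_csInf ?_ ?_
  · refine ⟨_, Metric.ball 0 (1 / 2), (1 : ℕ), Metric.isOpen_ball.measurableSet,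
      Metric.isBounded_ball, ?_, exact_on (N := 1) ht (by omega) fun P hP h2 => ?_, rfl⟩
    · rw [measureReal_def]
      exact ENNReal.toReal_pos (Metric.measure_ball_pos volume _ (by norm_num)).ne'
        measure_ball_lt_top.ne
    · rw [card_le_one]
      intro x hx z hz
      by_contra hne
      have h3 := h2 x hx z hz hne
      have hx' := Metric.mem_ball.1 (hP hx)
      have hz' := Metric.mem_ball.1 (hP hz)
      have h4 : dist x z ≤ dist x 0 + dist z 0 := dist_triangle_right _ _ _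
      linarith
  · rintro δ ⟨Λ, B, h1, h2, h3, h, rfl⟩
    exact Pool.Agent.Y509.KP.valid h1 h2 h3 fun C hC hs => bound_card h hC hs

theorem density_le_rho {n s t : ℕ} [NeZero n] (ht : 1 ≤ t) {R : ℝ} (hR : 0 < R)
    (h : rho n * (2 * R + 2) ^ n ≤ s + t) :
    lasserreDensity n s t ≤ (1 + 1 / R) ^ n * rho n := by
  have h1 := ballMax_le (n := n) hR.le
  have h2 : ballMax n R ≤ s + t := by
    have : (ballMax n R : ℝ) ≤ ((s + t : ℕ) : ℝ) := by
      push_cast
      exact h1.trans h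
    exact_mod_cast this
  refine (density_le_ballMax ht hR h2).trans ?_
  rw [div_le_iff₀ (by positivity)]
  refine h1.trans (le_of_eq ?_)
  rw [mul_comm ((1 + 1 / R) ^ n), mul_assoc, ← mul_pow]
  congr 2
  field_simp

end Pool.Agent.K4H31.SD
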